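import Pool.Agent.R260.OrlA

set_option autoImplicit false

open Filter Topology

namespace Pool.Agent.Results.MP_85199e_an.OrliczDivergence

/-- There is a real trigonometric series with `a_n^2 + b_n^2 ≤ 4/n`, hence with coefficients in
`ℓ^p` for every `p > 2`, which converges at no real point `x`. -/
theorem result :
    ∃ a b : ℕ → ℝ,
      (∀ n : ℕ, 1 ≤ n → a n ^ 2 + b n ^ 2 ≤ 4 / (n : ℝ)) ∧
      (∀ ε : ℝ, 0 < ε → Summable (fun n : ℕ => |a n| ^ (2 + ε) + |b n| ^ (2 + ε))) ∧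
      ∀ x : ℝ, ¬ ∃ l : ℝ, Tendsto
        (fun N : ℕ => ∑ n ∈ Finset.Icc 1 N,
          (a n * Real.cos ((n : ℝ) * x) + b n * Real.sin ((n : ℝ) * x))) atTop (𝓝 l) := by
  refine ⟨Pool.Agent.R260.Orl.ac, Pool.Agent.R260.Orl.bc, Pool.Agent.R260.Orl.size,
    Pool.Agent.R260.Orl.summ_both, ?_⟩
  rintro x ⟨l, hl⟩
  have hc := hl.cauchySeq
  rw [Metric.cauchySeq_iff] at hc
  obtain ⟨N, hN⟩ := hc (1/100) (by norm_num)
  obtain ⟨u, v, h1, h2, h3⟩ := Pool.Agent.R260.Orl.osc x N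
  have := hN v (by omega) u h1
  rw [Real.dist_eq] at this
  linarith

end Pool.Agent.Results.MP_85199e_an.OrliczDivergence
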